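import Mathlib
import Pool.Agent.V11104.WIDefs
import Pool.Agent.V11104.WIA

/-!
# MP_0c3956_an: no (piecewise) syndetic set is a weak interpolation set of order 2 for uniquely
ergodic systems
-/

set_option autoImplicit false

namespace Pool.Agent.Results.MP_0c3956_an.NoSyndetic

open Pool.Agent.V11104

/-- A set of natural numbers is piecewise syndetic if for some `L` there are arbitrarily long
intervals of positive integers in which every window of `L` consecutive integers meets it.
In particular every syndetic set is piecewise syndetic. -/
def PiecewiseSyndetic (S : Set ℕ) : Prop :=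
  ∃ L : ℕ, ∀ M : ℕ, ∃ a : ℕ, 1 ≤ a ∧ ∀ m : ℕ, a ≤ m → m < a + M → ∃ n ∈ S, m ≤ n ∧ n < m + L

/-- No piecewise syndetic set, in particular no syndetic set, is a weak interpolation set of
order `2` for uniquely ergodic systems. -/
theorem result (S : Set ℕ) (hS : PiecewiseSyndetic S) : ¬ WeakInterpolation 2 S := by
  obtain ⟨L, hL⟩ := hS
  refine UE.not_weakInterpolation_two (L := L) fun E M => ?_
  obtain ⟨a, ha1, ha⟩ := hL (E + M)
  exact ⟨a + E, by omega, fun m hm1 hm2 => ha m (by omega) (by omega)⟩

end Pool.Agent.Results.MP_0c3956_an.NoSyndetic
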